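import Pool.Agent.Y290.CJ.A
import Pool.Agent.Y852.PH.MX

/-!
# CB3-J-XPX: the expansion near `χ₀`, by continuation along a path from `0` to `χ₀`
-/

set_option autoImplicit false
set_option maxHeartbeats 1000000

namespace Pool.Agent.Y290.CJ

open Finset Filter Topology Metric
open Pool.Agent.W711.HT
open Pool.Agent.Y472
open Pool.Agent.Y481 (itI itN Sep wts cw)
open Pool.Agent.W719.AX (UX EXY)
open Pool.Agent.Y482.Ph (GXc)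
open Pool.Agent.Y852.PH.MX (XX xx_eq xx_diff)
open scoped Real

/-- the expansion near `0` -/
def Xh (s : ℂ → ℂ → ℂ → ℂ) (k : ℕ) (R : ℝ) (ls : List (ℤ × ℤ)) (G : ℂ → ℂ) (z : ℂ → ℕ → ℂ)
    (A : ℕ → ℂ → ℂ) : Prop :=
  GXc R (fun N χ => (N : ℂ) ^ (2 * k) * XN ls N χ) G A ∧
  ∀ χ ∈ Rc R R, (∀ j < 2 * k, z χ j ∈ Rc (R / 2) (R / 2) ∧
    Cr (fun x y => s x y χ) (2 * k) (cw ls) (z χ) j) ∧
    G χ = Vl (fun x y => s x y χ) (2 * k) (cw ls) (z χ)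

lemma Ch.cr {S : ℂ → ℂ → ℂ → ℂ} {p : ℂ} {k : ℕ} {R c' B C' : ℝ} {ls : List (ℤ × ℤ)} {G : ℂ → ℂ}
    {z : ℂ → ℕ → ℂ} (h : Ch S p k R c' B C' ls G z) {χ : ℂ} (hχ : χ ∈ Rz p R) :
    (∀ j < 2 * k, Cr (fun x y => S x y χ) (2 * k) (cw ls) (z (χ - p)) j) ∧
      G (χ - p) = Vl (fun x y => S x y χ) (2 * k) (cw ls) (z (χ - p)) := by
  obtain ⟨-, -, -, h4, -⟩ := h
  obtain ⟨h5, -, h6⟩ := h4 (χ - p) hχ
  rw [sub_add_cancel] at h5 h6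
  exact ⟨fun j hj => (h5 j hj).2.2.2, h6⟩

theorem main (S D : ℂ → ℂ → ℂ → ℂ) (hCEX : S_CEX) (hUQZ : S_UQZ)
    {ρs cs Cs : ℝ} {s dl : ℂ → ℂ → ℂ → ℂ} (hs3 : SD3 ρs cs Cs s dl)
    (hSZE : ∀ (p : ℂ) (ρ₁ c₁ C₁ : ℝ), SDZ p ρ₁ c₁ C₁ S D → ∀ ψ ψ' χ : ℂ, ψ ∈ Rc ρs ρs →
      ψ' ∈ Rc ρs ρs → χ ∈ Rc ρs ρs → ψ ∈ Rc ρ₁ ρ₁ → ψ' ∈ Rc ρ₁ ρ₁ → χ ∈ Rz p ρ₁ →
      s ψ ψ' χ = S ψ ψ' χ)
    {k : ℕ} (hk : 1 ≤ k) {Rx Mx : ℝ} (hRx : 0 < Rx) (hRxρ : Rx ≤ ρs)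
    (hX : ∀ ls : List (ℤ × ℤ), ls.length = k →
      (∀ p ∈ ls, Mx ≤ |(p.1 : ℝ)| ∧ Mx ≤ |(p.2 : ℝ)|) → ∃ (G : ℂ → ℂ) (z : ℂ → ℕ → ℂ)
        (A : ℕ → ℂ → ℂ), Xh s k Rx ls G z A)
    {P : Set ℂ} (hPc : IsCompact P) (hPconn : IsConnected P) {χ₀ : ℂ} (hχP : χ₀ ∈ P) {η : ℝ}
    (hηP : (η * Complex.I : ℂ) ∈ P) (hη0 : 0 < η) (hηR : η < Rx)
    {ρ₀ : ℝ} {d : ℂ → PD} (hd : ∀ p ∈ P, Gd S D k χ₀ ρ₀ p (d p)) :
    ∃ M : ℝ, 0 < M ∧ ∀ ls : List (ℤ × ℤ), ls.length = k →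
      (∀ p ∈ ls, M ≤ |(p.1 : ℝ)| ∧ M ≤ |(p.2 : ℝ)|) → ∃ (G : ℂ → ℂ) (z : ℂ → ℕ → ℂ)
        (A : ℕ → ℂ → ℂ), Ch S χ₀ k ((d χ₀).R / 2) (d χ₀).c' (d χ₀).B (d χ₀).C' ls G z ∧
        GXo (Rc ((d χ₀).R / 2) ((d χ₀).R / 2))
          (fun N χ => (N : ℂ) ^ (2 * k) * XN ls N (χ + χ₀)) G A := by
  -- the finite set of charts
  obtain ⟨t, htP, htc⟩ := hPc.elim_nhds_subcover (fun p => Rz p (d p).R) fun p hp =>
    (rz_open p _).mem_nhds (rz_self (hd p hp).hR)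
  obtain ⟨F, hF⟩ : ∃ F : Finset ℂ, F = insert χ₀ t := ⟨_, rfl⟩
  have hFP : ∀ p ∈ F, p ∈ P := by
    intro p hp
    rw [hF, mem_insert] at hp
    rcases hp with rfl | hp
    · exact hχP
    · exact htP p hp
  have hχF : χ₀ ∈ F := by rw [hF]; exact mem_insert_self _ _
  have hPF : P ⊆ ⋃ p ∈ F, Rz p (d p).R := by
    intro y hy
    obtain ⟨p, hp, h⟩ := Set.mem_iUnion₂.1 (htc hy)
    exact Set.mem_iUnion₂.2 ⟨p, by rw [hF]; exact mem_insert_of_mem hp, h⟩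
  have hFd : ∀ p ∈ F, Gd S D k χ₀ ρ₀ p (d p) := fun p hp => hd p (hFP p hp)
  -- the constants
  obtain ⟨r₁, hr1, hr1F⟩ := fin_lb F (fun p => (d p).R) fun p hp => (hFd p hp).hR
  obtain ⟨r, hr, hrx, hr11⟩ : ∃ r : ℝ, 0 < r ∧ r ≤ Rx ∧ r ≤ r₁ :=
    ⟨min Rx r₁, lt_min hRx hr1, min_le_left _ _, min_le_right _ _⟩
  have hrF : ∀ p ∈ F, r ≤ (d p).R := fun p hp => hr11.trans (hr1F p hp)
  obtain ⟨Cm, hCm, hCmF⟩ := fin_ub F fun p => (d p).C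
  obtain ⟨Mm, hMm, hMmF⟩ := fin_ub F fun p => (d p).M
  obtain ⟨C₂, hC2, hC2F⟩ := fin_ub F fun p => (d p).C'
  obtain ⟨M₁, hM1, hU1⟩ := hUQZ r Cm hr
  obtain ⟨M₂, hM2, hU2⟩ := hUQZ Rx Cs hRx
  obtain ⟨M, hM, hMM1, hMM2, hMMm, hMMx, hMC⟩ : ∃ M : ℝ, 0 < M ∧ M₁ ≤ M ∧ M₂ ≤ M ∧ Mm ≤ M ∧
      Mx ≤ M ∧ C₂ / M < r / 4 := by
    refine ⟨M₁ + M₂ + Mm + |Mx| + 8 * C₂ / r, by positivity, ?_, ?_, ?_, ?_, ?_⟩
    · have : 0 ≤ |Mx| := abs_nonneg _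
      have : 0 < 8 * C₂ / r := by positivity
      linarith
    · have : 0 ≤ |Mx| := abs_nonneg _
      have : 0 < 8 * C₂ / r := by positivity
      linarith
    · have : 0 ≤ |Mx| := abs_nonneg _
      have : 0 < 8 * C₂ / r := by positivity
      linarith
    · have : Mx ≤ |Mx| := le_abs_self _
      have : 0 < 8 * C₂ / r := by positivity
      linarith
    · have h1 : 0 ≤ |Mx| := abs_nonneg _
      have h2 : 0 < 8 * C₂ / r := by positivity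
      rw [div_lt_iff₀ (by positivity)]
      have h3 : r / 4 * (8 * C₂ / r) = 2 * C₂ := by
        field_simp
        ring
      have h4 : 0 ≤ r / 4 * (M₁ + M₂ + Mm + |Mx|) := by positivity
      have h5 : r / 4 * (M₁ + M₂ + Mm + |Mx| + 8 * C₂ / r) =
          r / 4 * (M₁ + M₂ + Mm + |Mx|) + r / 4 * (8 * C₂ / r) := by ring
      rw [h5, h3]
      linarith
  refine ⟨M, hM, ?_⟩
  intro ls hls hlsM
  have hn0 : 0 < 2 * k := by omega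
  have hn2 : 2 ≤ 2 * k := by omega
  have hcw : ∀ j < 2 * k, M ≤ |(cw ls j : ℝ)| := fun j hj => cw_bound hlsM (by rw [hls]; omega)
  -- the charts
  have hch : ∀ p ∈ F, ∃ (G : ℂ → ℂ) (z : ℂ → ℕ → ℂ),
      Ch S p k (d p).R (d p).c' (d p).B (d p).C' ls G z := fun p hp =>
    (hFd p hp).ch ls hls fun q hq =>
      ⟨((hMmF p hp).trans hMMm).trans (hlsM q hq).1, ((hMmF p hp).trans hMMm).trans (hlsM q hq).2⟩
  choose! G z hGz using hch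
  have hsm : ∀ p ∈ F, ∀ χ ∈ Rz p (d p).R, ∀ j < 2 * k, z p (χ - p) j ∈ Rc (r / 4) (r / 4) := by
    intro p hp χ hχ j hj
    obtain ⟨-, -, -, -, h5⟩ := hGz p hp
    refine rc_norm (((h5 M hlsM hM).1 (χ - p) hχ j hj).trans_lt ?_)
    refine lt_of_le_of_lt ?_ hMC
    exact div_le_div_of_nonneg_right (hC2F p hp) hM.le
  have hr42 : Rc (r / 4) (r / 4) ⊆ Rc (r / 2) (r / 2) := rc_mono (by linarith)
  have hr4 : Rc (r / 4) (r / 4) ⊆ Rc r r := rc_mono (by linarith)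
  have hbox : ∀ p ∈ F, Rz p (d p).R ⊆ Rz p (d p).ρ := fun p hp => rz_mono (hFd p hp).hRρ
  -- the values agree
  have hG : ∀ p ∈ F, ∀ q ∈ F, ∀ χ, χ ∈ Rz p (d p).R → χ ∈ Rz q (d q).R →
      G p (χ - p) = G q (χ - q) := by
    intro p hp q hq χ hχp hχq
    obtain ⟨c1, v1⟩ := (hGz p hp).cr hχp
    obtain ⟨c2, v2⟩ := (hGz q hq).cr hχq
    have hSp := (hFd p hp).hS
    have hrρ : r ≤ (d p).ρ := (hrF p hp).trans (hFd p hp).hRρ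
    have huq := hU1 (2 * k) (fun x y => S x y χ) (cw ls) (z p (χ - p)) (z q (χ - q)) hn2
      (sz_an hSp (hbox p hp hχp) hrρ)
      (fun ψ hψ ψ' hψ' => (hSp.sbd ψ (rc_mono hrρ hψ) ψ' (rc_mono hrρ hψ') χ
        (hbox p hp hχp)).trans (hCmF p hp))
      (fun j hj => hMM1.trans (hcw j hj))
      (fun j hj => ⟨hr42 (hsm p hp χ hχp j hj), hr42 (hsm q hq χ hχq j hj), c1 j hj, c2 j hj⟩)
    rw [v1, v2]
    exact Vl_congr hn0 huq fun _ _ => rfl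
  -- the domain
  obtain ⟨U, hU⟩ : ∃ U : Set ℂ, U = ⋃ p ∈ F, Rz p (d p).R := ⟨_, rfl⟩
  have hUo : IsOpen U := by
    rw [hU]
    exact isOpen_biUnion fun p _ => rz_open _ _
  have hUc : IsConnected U := by
    rw [hU]
    exact union_conn hPconn F (fun p => (d p).R) hFP (fun p hp => (hFd p hp).hR) hPF
  obtain ⟨Gg, hGg⟩ : ∃ Gg : ℂ → ℂ, Gg = Gt F (fun p => (d p).R) G := ⟨_, rfl⟩
  have hGgp : ∀ p ∈ F, ∀ χ ∈ Rz p (d p).R, Gg χ = G p (χ - p) := by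
    intro p hp χ hχ
    rw [hGg]
    exact Gt_eq (R := fun p => (d p).R) hG hp hχ
  have hGd : DifferentiableOn ℂ Gg U := by
    rw [hGg, hU]
    exact Gt_diff (R := fun p => (d p).R) hG fun p hp => (hGz p hp).1
  have hmw1 : MW (fun N χ => XN ls N χ) Gg U := by
    rw [hGg, hU]
    exact mw_union (X := fun N χ => XN ls N χ) (R := fun p => (d p).R) hG
      fun p hp => (hGz p hp).2.2.1
  have hmw2 := mw_pow k hmw1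
  have hls0 : ls ≠ [] := by
    intro h
    rw [h, List.length_nil] at hls
    omega
  have hmw : MW (XX ls k) Gg U := by
    intro ε hε
    filter_upwards [hmw2 ε hε, eventually_ge_atTop 2] with N hN hN2 χ hχ
    rw [xx_eq hN2]
    exact hN χ hχ
  -- the expansion near `0`
  obtain ⟨Gx, zx, Ax, hGx, hzx⟩ := hX ls hls fun q hq =>
    ⟨hMMx.trans (hlsM q hq).1, hMMx.trans (hlsM q hq).2⟩
  obtain ⟨W, hW⟩ : ∃ W : Set ℂ, W = U ∩ Rc Rx Rx := ⟨_, rfl⟩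
  have hWo : IsOpen W := by
    rw [hW]
    exact hUo.inter (rc_open _ _)
  have hWn : W.Nonempty := by
    refine ⟨η * Complex.I, ?_⟩
    rw [hW]
    refine ⟨hU ▸ hPF hηP, ?_, ?_⟩
    · simpa using hRx
    · have : (η * Complex.I : ℂ).im = η := by simp
      rw [this, abs_of_pos hη0]
      exact hηR
  have hWU : W ⊆ U := by
    rw [hW]
    exact Set.inter_subset_left
  have hWx : W ⊆ Rc Rx Rx := by
    rw [hW]
    exact Set.inter_subset_right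
  have hGW : ∀ χ ∈ W, Gg χ = Gx χ := by
    intro χ hχ
    have hχU := hWU hχ
    rw [hU] at hχU
    obtain ⟨p, hp, hχp⟩ := Set.mem_iUnion₂.1 hχU
    rw [hGgp p hp χ hχp]
    obtain ⟨c1, v1⟩ := (hGz p hp).cr hχp
    obtain ⟨c2, v2⟩ := hzx χ (hWx hχ)
    have hSp := (hFd p hp).hS
    have hrρ : r ≤ (d p).ρ := (hrF p hp).trans (hFd p hp).hRρ
    have hrs : r ≤ ρs := hrx.trans hRxρ
    have hχs : χ ∈ Rc ρs ρs := rc_mono hRxρ (hWx hχ)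
    have heq : ∀ x ∈ Rc r r, ∀ y ∈ Rc r r, S x y χ = s x y χ := fun x hx y hy =>
      (hSZE p _ _ _ hSp x y χ (rc_mono hrs hx) (rc_mono hrs hy) hχs (rc_mono hrρ hx)
        (rc_mono hrρ hy) (hbox p hp hχp)).symm
    have c3 : ∀ j < 2 * k, Cr (fun x y => s x y χ) (2 * k) (cw ls) (z p (χ - p)) j := fun j hj =>
      Cr_congr hn0 (rc_open r r) (fun i hi => hr4 (hsm p hp χ hχp i hi)) heq hj (c1 j hj)
    have huq := hU2 (2 * k) (fun x y => s x y χ) (cw ls) (z p (χ - p)) (zx χ) hn2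
      (s3_an hs3 hχs hRxρ)
      (fun ψ hψ ψ' hψ' => hs3.sbd ψ (rc_mono hRxρ hψ) ψ' (rc_mono hRxρ hψ') χ hχs)
      (fun j hj => hMM2.trans (hcw j hj))
      (fun j hj => ⟨rc_mono (by linarith) (hsm p hp χ hχp j hj), (c2 j hj).1, c3 j hj,
        (c2 j hj).2⟩)
    rw [v1, v2]
    refine (Vl_congr hn0 (fun j hj => (huq j hj).symm) fun j hj => ?_).symm
    exact (heq _ (hr4 (hsm p hp χ hχp j hj)) _
      (hr4 (hsm p hp χ hχp _ (Nat.mod_lt _ hn0)))).symm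
  have hgxo : GXo W (XX ls k) Gg Ax := by
    refine ⟨fun K => ?_, fun n => (hGx.an n).mono hWx, fun χ hχ => hGx.nz χ (hWx hχ)⟩
    obtain ⟨C, hC⟩ := hGx.ux K
    refine ⟨C, ?_⟩
    filter_upwards [hC, eventually_ge_atTop 2] with N h1 h2 χ hχ
    rw [xx_eq h2]
    show ‖Complex.exp (-(N * Gg χ)) * ((N : ℂ) ^ (2 * k) * XN ls N χ) - _‖ ≤ _
    rw [hGW χ hχ]
    exact h1 χ (hWx hχ)
  -- continuation
  have hR0 := (hFd χ₀ hχF).hR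
  obtain ⟨hVU, hVc⟩ := rz_closure (p := χ₀) hR0
  have hRU : Rz χ₀ (d χ₀).R ⊆ U := by
    rw [hU]
    exact fun y hy => Set.mem_iUnion₂.2 ⟨χ₀, hχF, hy⟩
  obtain ⟨A', hA'⟩ := hCEX U W (XX ls k) Gg Ax hUo hUc hWo hWn hWU
    (fun N => (xx_diff hls0 k N).differentiableOn) hGd hmw hgxo (Rz χ₀ ((d χ₀).R / 2))
    (rz_open _ _) hVc (hVU.trans hRU)
  -- the conclusion
  have hsub : Rc ((d χ₀).R / 2) ((d χ₀).R / 2) ⊆ Rc (d χ₀).R (d χ₀).R := rc_mono (by linarith)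
  obtain ⟨g1, g2, g3, g4, g5⟩ := hGz χ₀ hχF
  refine ⟨G χ₀, z χ₀, fun n χ => A' n (χ + χ₀), ⟨g1.mono hsub, fun χ hχ => g2 χ (hsub hχ), ?_, ?_,
    ?_⟩, ?_⟩
  · intro ε hε
    filter_upwards [g3 ε hε] with N hN χ hχ
    exact hN χ (hsub hχ)
  · intro χ hχ
    obtain ⟨a1, a2⟩ := g4 χ (hsub hχ)
    refine ⟨fun j hj => ⟨?_, (a1 j hj).2⟩, a2⟩
    have h1 := hsm χ₀ hχF (χ + χ₀) (rz_add (hsub hχ)) j hj
    rw [add_sub_cancel_right] at h1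
    exact rc_mono (by have := hrF χ₀ hχF; linarith) h1
  · intro m hm hm0
    obtain ⟨a1, a2⟩ := g5 m hm hm0
    exact ⟨fun χ hχ => a1 χ (hsub hχ), fun χ hχ => a2 χ (hsub hχ)⟩
  · refine ⟨fun K => ?_, fun n => ?_, fun χ hχ => hA'.nz _ (rz_add hχ)⟩
    · obtain ⟨C, hC⟩ := hA'.ux K
      refine ⟨C, ?_⟩
      filter_upwards [hC, eventually_ge_atTop 2] with N h1 h2 χ hχ
      have h3 := h1 (χ + χ₀) (rz_add hχ)
      rw [xx_eq h2] at h3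
      have h4 := hGgp χ₀ hχF (χ + χ₀) (rz_add (hsub hχ))
      rw [add_sub_cancel_right] at h4
      simp only at h3 ⊢
      rw [h4] at h3
      exact h3
    · have h1 : DifferentiableOn ℂ (fun χ : ℂ => χ + χ₀) (Rc ((d χ₀).R / 2) ((d χ₀).R / 2)) := by
        fun_prop
      exact (hA'.an n).comp h1 fun χ hχ => rz_add hχ

/-- XPX: the expansion near `χ₀` -/
theorem xpx : Pool.Agent.Y472.S_XPX := by
  intro hCEX hPTZ hSZE hUQZ hS0P hSDZ hXLZ hXLX χ₀ ρ₀ c C hZ hbe hS k hk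
  obtain ⟨ρs, cs, Cs, s, dl, hs3, hX⟩ := hXLX
  obtain ⟨Rx, cx, hRx, hRx1, hRxρ, hcx, Bx, Cx, Mx, hBx, hCx, hMx, hXls⟩ := hX k hk
  obtain ⟨η, hη0, hη1, hη2⟩ : ∃ η : ℝ, 0 < η ∧ η ≤ χ₀.im ∧ η < Rx :=
    ⟨min χ₀.im (Rx / 2), lt_min hZ.2.2.1 (by positivity), min_le_left _ _,
      (min_le_right _ _).trans_lt (by linarith)⟩
  obtain ⟨P, hPc, hPconn, hχP, hηP, hPZ⟩ := hPTZ hS0P χ₀ hZ hbe η hη0 hη1
  have hch : ∀ p ∈ P, ∃ d : PD, Gd szz dzz k χ₀ ρ₀ p d := fun p hp =>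
    exists_gd hSDZ hXLZ hS hk (hPZ p hp).1 (hPZ p hp).2
  choose! d hd using hch
  have hX' : ∀ ls : List (ℤ × ℤ), ls.length = k →
      (∀ p ∈ ls, Mx ≤ |(p.1 : ℝ)| ∧ Mx ≤ |(p.2 : ℝ)|) → ∃ (G : ℂ → ℂ) (z : ℂ → ℕ → ℂ)
        (A : ℕ → ℂ → ℂ), Xh s k Rx ls G z A := by
    intro ls hls hlsM
    obtain ⟨G, z, A, -, -, -, h4, h5, -⟩ := hXls ls hls hlsM
    refine ⟨G, z, A, h4, fun χ hχ => ?_⟩
    obtain ⟨a1, -, a3⟩ := h5 χ hχ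
    exact ⟨fun j hj => ⟨(a1 j hj).1, (a1 j hj).2.2.2⟩, a3⟩
  obtain ⟨M, hM, hfin⟩ := main szz dzz hCEX hUQZ hs3
    (fun p ρ₁ c₁ C₁ h => hSZE ρs cs Cs s dl hs3 p ρ₁ c₁ C₁ h) hk hRx hRxρ hX' hPc hPconn hχP hηP
    hη0 hη2 hd
  have hd0 := hd χ₀ hχP
  refine ⟨(d χ₀).R / 2, (d χ₀).c', by have := hd0.hR; positivity, ?_, ?_, hd0.hc', (d χ₀).B,
    (d χ₀).C', M, hd0.hB, hd0.hC', hM, ?_⟩
  · have := hd0.hR
    have := hd0.hR1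
    linarith
  · have h1 := hd0.hR
    have h2 := hd0.hRρ
    have h3 := hd0.h0 rfl
    linarith
  · intro ls hls hlsM
    obtain ⟨G, z, A, ⟨g1, g2, g3, g4, g5⟩, g6⟩ := hfin ls hls hlsM
    exact ⟨G, z, A, g1, g2, g3, g6, g4, g5⟩

end Pool.Agent.Y290.CJ
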