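import Pool.Agent.Y472.J.Defs

/-!
# CB3-J-XPX: preparations
-/

set_option autoImplicit false
set_option maxHeartbeats 1000000

namespace Pool.Agent.Y290.CJ

open Finset Filter Topology Metric
open Pool.Agent.W711.HT
open Pool.Agent.Y472
open Pool.Agent.Y481 (itI itN Sep wts cw)
open Pool.Agent.W719.AX (UX EXY)
open scoped Real

/-! ### Boxes -/

lemma rc_open (a b : ℝ) : IsOpen (Rc a b) := by
  have : Rc a b = {z : ℂ | |z.re| < a} ∩ {z : ℂ | |z.im| < b} := rfl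
  rw [this]
  exact (isOpen_lt (by fun_prop) continuous_const).inter (isOpen_lt (by fun_prop) continuous_const)

lemma rc_mono {a b : ℝ} (h : a ≤ b) : Rc a a ⊆ Rc b b := fun _ hz => ⟨hz.1.trans_le h, hz.2.trans_le h⟩

lemma rc_norm {R : ℝ} {z : ℂ} (h : ‖z‖ < R) : z ∈ Rc R R :=
  ⟨(Complex.abs_re_le_norm z).trans_lt h, (Complex.abs_im_le_norm z).trans_lt h⟩

lemma rc_zero {R : ℝ} (h : 0 < R) : (0 : ℂ) ∈ Rc R R := rc_norm (by simpa using h)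

lemma rc_convex (a b : ℝ) : Convex ℝ (Rc a b) := by
  have : Rc a b = {z : ℂ | z.re < a} ∩ {z : ℂ | -a < z.re} ∩ ({z : ℂ | z.im < b} ∩
      {z : ℂ | -b < z.im}) := by
    ext z
    simp only [Rc, Set.mem_ofPred_eq, Set.mem_inter_iff, abs_lt]
    tauto
  rw [this]
  exact ((convex_halfSpace_re_lt a).inter (convex_halfSpace_re_gt (-a))).inter
    ((convex_halfSpace_im_lt b).inter (convex_halfSpace_im_gt (-b)))

lemma rz_eq (p : ℂ) (R : ℝ) : Rz p R = (fun χ => χ - p) ⁻¹' Rc R R := rfl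

lemma rz_open (p : ℂ) (R : ℝ) : IsOpen (Rz p R) := (rc_open R R).preimage (by fun_prop)

lemma rz_self {p : ℂ} {R : ℝ} (h : 0 < R) : p ∈ Rz p R := by
  show p - p ∈ Rc R R
  rw [sub_self]
  exact rc_zero h

lemma rz_mono {p : ℂ} {a b : ℝ} (h : a ≤ b) : Rz p a ⊆ Rz p b := fun _ hz => rc_mono h hz

lemma rz_add {p : ℂ} {R : ℝ} {χ : ℂ} (h : χ ∈ Rc R R) : χ + p ∈ Rz p R := by
  show χ + p - p ∈ Rc R R
  rw [add_sub_cancel_right]
  exact h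

lemma rz_conn (p : ℂ) {R : ℝ} (h : 0 < R) : IsConnected (Rz p R) := by
  have h1 : Rz p R = (fun χ => χ + p) '' Rc R R := by
    ext χ
    constructor
    · intro h
      exact ⟨χ - p, h, sub_add_cancel _ _⟩
    · rintro ⟨w, hw, rfl⟩
      exact rz_add hw
  rw [h1]
  refine IsConnected.image ⟨⟨0, rc_zero h⟩, (rc_convex R R).isPreconnected⟩ _ ?_
  exact (continuous_id.add continuous_const).continuousOn

/-- the closure of a smaller box -/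
lemma rz_closure {p : ℂ} {R : ℝ} (h : 0 < R) : closure (Rz p (R / 2)) ⊆ Rz p R ∧
    IsCompact (closure (Rz p (R / 2))) := by
  constructor
  · have h1 : Rz p (R / 2) ⊆ {χ : ℂ | |(χ - p).re| ≤ R / 2} ∩ {χ : ℂ | |(χ - p).im| ≤ R / 2} :=
      fun χ hχ => ⟨hχ.1.le, hχ.2.le⟩
    have h2 : IsClosed ({χ : ℂ | |(χ - p).re| ≤ R / 2} ∩ {χ : ℂ | |(χ - p).im| ≤ R / 2}) :=
      (isClosed_le (by fun_prop) continuous_const).inter
        (isClosed_le (by fun_prop) continuous_const)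
    refine (closure_minimal h1 h2).trans fun χ hχ => ⟨?_, ?_⟩
    · have : |(χ - p).re| ≤ R / 2 := hχ.1
      exact lt_of_le_of_lt this (by linarith)
    · have : |(χ - p).im| ≤ R / 2 := hχ.2
      exact lt_of_le_of_lt this (by linarith)
  · refine Bornology.IsBounded.isCompact_closure ?_
    refine (Metric.isBounded_ball (x := p) (r := 2 * R)).subset fun χ hχ => ?_
    rw [mem_ball, dist_eq_norm]
    have h1 := Complex.norm_le_abs_re_add_abs_im (χ - p)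
    have h2 : |(χ - p).re| < R / 2 := hχ.1
    have h3 : |(χ - p).im| < R / 2 := hχ.2
    linarith

/-! ### Finite sets -/

lemma fin_lb (F : Finset ℂ) (f : ℂ → ℝ) (hf : ∀ p ∈ F, 0 < f p) :
    ∃ r : ℝ, 0 < r ∧ ∀ p ∈ F, r ≤ f p := by
  induction F using Finset.induction_on with
  | empty => exact ⟨1, one_pos, by simp⟩
  | insert a s _ ih =>
    obtain ⟨r, hr, h⟩ := ih fun p hp => hf p (mem_insert_of_mem hp)
    refine ⟨min r (f a), lt_min hr (hf a (mem_insert_self _ _)), fun p hp => ?_⟩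
    rcases mem_insert.1 hp with rfl | hp
    · exact min_le_right _ _
    · exact (min_le_left _ _).trans (h p hp)

lemma fin_ub (F : Finset ℂ) (f : ℂ → ℝ) : ∃ r : ℝ, 0 < r ∧ ∀ p ∈ F, f p ≤ r := by
  induction F using Finset.induction_on with
  | empty => exact ⟨1, one_pos, by simp⟩
  | insert a s _ ih =>
    obtain ⟨r, hr, h⟩ := ih
    refine ⟨max r (f a), lt_max_of_lt_left hr, fun p hp => ?_⟩
    rcases mem_insert.1 hp with rfl | hp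
    · exact le_max_right _ _
    · exact (h p hp).trans (le_max_left _ _)

/-- the union of boxes meeting a connected set is connected -/
lemma union_conn {P : Set ℂ} (hP : IsConnected P) (F : Finset ℂ) (R : ℂ → ℝ)
    (hF : ∀ p ∈ F, p ∈ P) (hR : ∀ p ∈ F, 0 < R p) (hPF : P ⊆ ⋃ p ∈ F, Rz p (R p)) :
    IsConnected (⋃ p ∈ F, Rz p (R p)) := by
  obtain ⟨x, hx⟩ := hP.nonempty
  have h1 : (⋃ p ∈ F, Rz p (R p)) = ⋃ p : F, (P ∪ Rz p.1 (R p.1)) := by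
    ext y
    simp only [Set.mem_iUnion, Set.mem_union]
    constructor
    · rintro ⟨p, hp, h⟩
      exact ⟨⟨p, hp⟩, Or.inr h⟩
    · rintro ⟨⟨p, hp⟩, h | h⟩
      · have := hPF h
        simpa only [Set.mem_iUnion] using this
      · exact ⟨p, hp, h⟩
  refine ⟨⟨x, hPF hx⟩, ?_⟩
  rw [h1]
  refine isPreconnected_iUnion ⟨x, ?_⟩ fun p => ?_
  · rw [Set.mem_iInter]
    exact fun p => Or.inl hx
  · exact (hP.isPreconnected).union p.1 (hF p.1 p.2) (rz_self (hR p.1 p.2))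
      (rz_conn p.1 (hR p.1 p.2)).isPreconnected

/-! ### The weights -/

lemma wts_length (ls : List (ℤ × ℤ)) : (wts ls).length = 2 * ls.length := by
  unfold wts
  induction ls with
  | nil => rfl
  | cons p l ih =>
    rw [List.map_cons, List.flatten_cons, List.length_append, ih, List.length_cons]
    simp
    ring

lemma cw_bound {ls : List (ℤ × ℤ)} {M : ℝ} (h : ∀ p ∈ ls, M ≤ |(p.1 : ℝ)| ∧ M ≤ |(p.2 : ℝ)|)
    {j : ℕ} (hj : j < 2 * ls.length) : M ≤ |(cw ls j : ℝ)| := by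
  have h1 : j < (wts ls).length := by rw [wts_length]; exact hj
  have h2 : cw ls j ∈ wts ls := by
    unfold cw
    rw [List.getD_eq_getElem _ _ h1]
    exact List.getElem_mem h1
  unfold wts at h2
  rw [List.mem_flatten] at h2
  obtain ⟨l, hl, h3⟩ := h2
  rw [List.mem_map] at hl
  obtain ⟨p, hp, rfl⟩ := hl
  rcases List.mem_cons.1 h3 with h4 | h4
  · rw [h4]; exact (h p hp).1
  · rw [List.mem_singleton.1 h4]; exact (h p hp).2

/-! ### Charts -/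

/-- critical configurations -/
def Cr (σ : ℂ → ℂ → ℂ) (n : ℕ) (a : ℕ → ℤ) (z : ℕ → ℂ) (j : ℕ) : Prop :=
  Complex.I * a ((j + 1) % n) * z ((j + 1) % n) / (2 * π) + Complex.I +
    deriv (fun w => σ (z j) w) (z ((j + 1) % n)) +
    deriv (fun w => σ w (z (((j + 1) % n + 1) % n))) (z ((j + 1) % n)) = 0

/-- critical values -/
noncomputable def Vl (σ : ℂ → ℂ → ℂ) (n : ℕ) (a : ℕ → ℤ) (z : ℕ → ℂ) : ℂ :=
  ∑ j ∈ range n, (Complex.I * a j * z j ^ 2 / (4 * π) +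
            Complex.I * z j + σ (z j) (z ((j + 1) % n)))

lemma Vl_congr {σ σ' : ℂ → ℂ → ℂ} {n : ℕ} (hn : 0 < n) {a : ℕ → ℤ} {z z' : ℕ → ℂ}
    (hz : ∀ j < n, z j = z' j) (hσ : ∀ j < n, σ (z' j) (z' ((j + 1) % n)) =
      σ' (z' j) (z' ((j + 1) % n))) : Vl σ n a z = Vl σ' n a z' := by
  unfold Vl
  refine sum_congr rfl fun j hj => ?_
  rw [mem_range] at hj
  rw [hz j hj, hz _ (Nat.mod_lt _ hn), hσ j hj]

/-- two exponents which agree near a configuration -/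
lemma Cr_congr {σ σ' : ℂ → ℂ → ℂ} {n : ℕ} (hn : 0 < n) {a : ℕ → ℤ} {z : ℕ → ℂ} {V : Set ℂ}
    (hV : IsOpen V) (hz : ∀ j < n, z j ∈ V) (hσ : ∀ x ∈ V, ∀ y ∈ V, σ x y = σ' x y) {j : ℕ}
    (hj : j < n) (h : Cr σ n a z j) : Cr σ' n a z j := by
  have h1 := hz _ (Nat.mod_lt (j + 1) hn)
  have h2 := hz _ (Nat.mod_lt ((j + 1) % n + 1) hn)
  have e1 : deriv (fun w => σ (z j) w) (z ((j + 1) % n)) =
      deriv (fun w => σ' (z j) w) (z ((j + 1) % n)) := by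
    apply Filter.EventuallyEq.deriv_eq
    filter_upwards [hV.mem_nhds h1] with w hw
    exact hσ _ (hz j hj) _ hw
  have e2 : deriv (fun w => σ w (z (((j + 1) % n + 1) % n))) (z ((j + 1) % n)) =
      deriv (fun w => σ' w (z (((j + 1) % n + 1) % n))) (z ((j + 1) % n)) := by
    apply Filter.EventuallyEq.deriv_eq
    filter_upwards [hV.mem_nhds h1] with w hw
    exact hσ _ hw _ h2
  unfold Cr at h ⊢
  rw [← e1, ← e2]
  exact h

/-- `szz` for fixed `χ` -/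
lemma sz_an {s dl : ℂ → ℂ → ℂ → ℂ} {p : ℂ} {ρ c C : ℝ} (hS : SDZ p ρ c C s dl) {χ : ℂ}
    (hχ : χ ∈ Rz p ρ) {r : ℝ} (hr : r ≤ ρ) :
    DifferentiableOn ℂ (fun q : ℂ × ℂ => s q.1 q.2 χ) (Rc r r ×ˢ Rc r r) := by
  have h1 : DifferentiableOn ℂ (fun q : ℂ × ℂ => (q.1, q.2, χ)) (Rc r r ×ˢ Rc r r) := by fun_prop
  exact hS.san.comp h1 fun q hq => ⟨rc_mono hr hq.1, rc_mono hr hq.2, hχ⟩

lemma s3_an {ρ c C : ℝ} {s dl : ℂ → ℂ → ℂ → ℂ} (hS : SD3 ρ c C s dl) {χ : ℂ} (hχ : χ ∈ Rc ρ ρ)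
    {r : ℝ} (hr : r ≤ ρ) :
    DifferentiableOn ℂ (fun q : ℂ × ℂ => s q.1 q.2 χ) (Rc r r ×ˢ Rc r r) := by
  have h1 : DifferentiableOn ℂ (fun q : ℂ × ℂ => (q.1, q.2, χ)) (Rc r r ×ˢ Rc r r) := by fun_prop
  exact hS.san.comp h1 fun q hq => ⟨rc_mono hr hq.1, rc_mono hr hq.2, hχ⟩

/-- the conclusion of XLZ -/
def Ch (S : ℂ → ℂ → ℂ → ℂ) (p : ℂ) (k : ℕ) (R c' B C' : ℝ) (ls : List (ℤ × ℤ)) (G : ℂ → ℂ) (z : ℂ → ℕ → ℂ) :
    Prop :=
        DifferentiableOn ℂ G (Rc R R) ∧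
        (∀ χ ∈ Rc R R, ‖G χ‖ ≤ B ∧ (deriv (deriv G) χ).re ≤ -c') ∧
        MW (fun N χ => XN ls N (χ + p)) G (Rc R R) ∧
        (∀ χ ∈ Rc R R, (∀ j < 2 * k, z χ j ∈ Rc (R / 2) (R / 2) ∧ 0 < (z χ j).im ∧
            ‖z χ j‖ ≤ 1 / 10 ∧
          Complex.I * cw ls ((j + 1) % (2 * k)) * z χ ((j + 1) % (2 * k)) / (2 * π) + Complex.I +
            deriv (fun w => S (z χ j) w (χ + p)) (z χ ((j + 1) % (2 * k))) +
            deriv (fun w => S w (z χ (((j + 1) % (2 * k) + 1) % (2 * k))) (χ + p))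
              (z χ ((j + 1) % (2 * k))) = 0) ∧
          deriv G χ = ∑ j ∈ range (2 * k),
            deriv (fun w => S (z χ j) (z χ ((j + 1) % (2 * k))) w) (χ + p) ∧
          G χ = ∑ j ∈ range (2 * k), (Complex.I * cw ls j * z χ j ^ 2 / (4 * π) +
            Complex.I * z χ j + S (z χ j) (z χ ((j + 1) % (2 * k))) (χ + p))) ∧
        ∀ m : ℝ, (∀ p ∈ ls, m ≤ |(p.1 : ℝ)| ∧ m ≤ |(p.2 : ℝ)|) → 0 < m →
          (∀ χ ∈ Rc R R, ∀ j < 2 * k, ‖z χ j‖ ≤ C' / m) ∧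
          ∀ χ ∈ Rc R R, ‖G χ - 2 * k * S 0 0 (χ + p)‖ ≤ C' / m

/-- the data of a chart -/
structure PD where
  ρ : ℝ
  c : ℝ
  C : ℝ
  R : ℝ
  c' : ℝ
  B : ℝ
  C' : ℝ
  M : ℝ

noncomputable instance : Inhabited PD := ⟨⟨0, 0, 0, 0, 0, 0, 0, 0⟩⟩

/-- good data -/
structure Gd (S D : ℂ → ℂ → ℂ → ℂ) (k : ℕ) (χ₀ : ℂ) (ρ₀ : ℝ) (p : ℂ) (d : PD) : Prop where
  hS : SDZ p d.ρ d.c d.C S D
  h0 : p = χ₀ → d.ρ = ρ₀
  hR : 0 < d.R
  hR1 : d.R ≤ 1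
  hRρ : d.R ≤ d.ρ
  hc' : 0 < d.c'
  hB : 0 < d.B
  hC' : 0 < d.C'
  hM : 0 < d.M
  ch : ∀ ls : List (ℤ × ℤ), ls.length = k →
      (∀ q ∈ ls, d.M ≤ |(q.1 : ℝ)| ∧ d.M ≤ |(q.2 : ℝ)|) → ∃ (G : ℂ → ℂ) (z : ℂ → ℕ → ℂ),
        Ch S p k d.R d.c' d.B d.C' ls G z

lemma exists_gd (hSDZ : ∀ χ₀ : ℂ, Zr χ₀ → ∃ ρ₀ c C : ℝ, SDZ χ₀ ρ₀ c C szz dzz) (hXLZ : XLZc)
    {χ₀ : ℂ} {ρ₀ c C : ℝ} (hS : SDZ χ₀ ρ₀ c C szz dzz) {k : ℕ} (hk : 1 ≤ k) {p : ℂ}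
    (hp : Zr p) (hb : bet ≤ (s0 p).re) : ∃ d : PD, Gd szz dzz k χ₀ ρ₀ p d := by
  obtain ⟨ρ, c, C, hSp, h0⟩ : ∃ ρ c C : ℝ, SDZ p ρ c C szz dzz ∧ (p = χ₀ → ρ = ρ₀) := by
    by_cases h : p = χ₀
    · rw [h]
      exact ⟨ρ₀, c, C, hS, fun _ => rfl⟩
    · obtain ⟨ρ, c, C, h1⟩ := hSDZ p hp
      exact ⟨ρ, c, C, h1, fun h' => absurd h' h⟩
  obtain ⟨R, c', hR, hR1, hRρ, hc', B, C', M, hB, hC', hM, h⟩ := hXLZ p ρ c C hp hb hSp k hk
  refine ⟨⟨ρ, c, C, R, c', B, C', M⟩, hSp, h0, hR, hR1, hRρ, hc', hB, hC', hM, ?_⟩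
  intro ls hls hlsM
  exact h ls hls hlsM

/-! ### Gluing -/

/-- the glued function -/
noncomputable def Gt (F : Finset ℂ) (R : ℂ → ℝ) (G : ℂ → ℂ → ℂ) (χ : ℂ) : ℂ :=
  open Classical in
  if h : ∃ p ∈ F, χ ∈ Rz p (R p) then G h.choose (χ - h.choose) else 0

lemma Gt_eq {F : Finset ℂ} {R : ℂ → ℝ} {G : ℂ → ℂ → ℂ}
    (hG : ∀ p ∈ F, ∀ q ∈ F, ∀ χ, χ ∈ Rz p (R p) → χ ∈ Rz q (R q) → G p (χ - p) = G q (χ - q))
    {p : ℂ} (hp : p ∈ F) {χ : ℂ} (hχ : χ ∈ Rz p (R p)) : Gt F R G χ = G p (χ - p) := by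
  have h : ∃ p ∈ F, χ ∈ Rz p (R p) := ⟨p, hp, hχ⟩
  unfold Gt
  rw [dif_pos h]
  exact hG _ h.choose_spec.1 _ hp _ h.choose_spec.2 hχ

lemma Gt_diff {F : Finset ℂ} {R : ℂ → ℝ} {G : ℂ → ℂ → ℂ}
    (hG : ∀ p ∈ F, ∀ q ∈ F, ∀ χ, χ ∈ Rz p (R p) → χ ∈ Rz q (R q) → G p (χ - p) = G q (χ - q))
    (hd : ∀ p ∈ F, DifferentiableOn ℂ (G p) (Rc (R p) (R p))) :
    DifferentiableOn ℂ (Gt F R G) (⋃ p ∈ F, Rz p (R p)) := by
  intro χ hχ
  rw [Set.mem_iUnion₂] at hχ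
  obtain ⟨p, hp, hχ⟩ := hχ
  have h1 : Gt F R G =ᶠ[𝓝 χ] fun χ' => G p (χ' - p) := by
    filter_upwards [(rz_open p (R p)).mem_nhds hχ] with χ' hχ'
    exact Gt_eq hG hp hχ'
  have h2 : DifferentiableAt ℂ (G p) (χ - p) :=
    (hd p hp (χ - p) hχ).differentiableAt ((rc_open _ _).mem_nhds hχ)
  have h3 : DifferentiableAt ℂ (fun χ' => G p (χ' - p)) χ :=
    h2.comp χ (differentiableAt_id.sub (differentiableAt_const p))
  exact (h1.differentiableAt_iff.2 h3).differentiableWithinAt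

/-- finite unions of growth conditions -/
lemma mw_union {X : ℕ → ℂ → ℂ} {F : Finset ℂ} {R : ℂ → ℝ} {G : ℂ → ℂ → ℂ}
    (hG : ∀ p ∈ F, ∀ q ∈ F, ∀ χ, χ ∈ Rz p (R p) → χ ∈ Rz q (R q) → G p (χ - p) = G q (χ - q))
    (h : ∀ p ∈ F, MW (fun N χ => X N (χ + p)) (G p) (Rc (R p) (R p))) :
    MW X (Gt F R G) (⋃ p ∈ F, Rz p (R p)) := by
  intro ε hε
  have h1 : ∀ᶠ N : ℕ in atTop, ∀ p ∈ F, ∀ w ∈ Rc (R p) (R p), X N (w + p) ≠ 0 ∧
      |Real.log ‖X N (w + p)‖ - N * (G p w).re| ≤ ε * N := by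
    rw [eventually_all_finset]
    intro p hp
    exact h p hp ε hε
  filter_upwards [h1] with N hN χ hχ
  rw [Set.mem_iUnion₂] at hχ
  obtain ⟨p, hp, hχ⟩ := hχ
  have h2 := hN p hp (χ - p) hχ
  rw [sub_add_cancel] at h2
  rw [Gt_eq hG hp hχ]
  exact h2

/-- powers of `N` -/
lemma mw_pow {X : ℕ → ℂ → ℂ} {G : ℂ → ℂ} {U : Set ℂ} (k : ℕ) (h : MW X G U) :
    MW (fun N χ => (N : ℂ) ^ (2 * k) * X N χ) G U := by
  intro ε hε
  have h1 := h (ε / 2) (by positivity)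
  have h2 : Tendsto (fun N : ℕ => 2 * (k : ℝ) * (Real.log N / N)) atTop (𝓝 0) := by
    have h3 : Tendsto (fun N : ℕ => Real.log N / N) atTop (𝓝 0) := by
      have h4 := Real.isLittleO_log_id_atTop.tendsto_div_nhds_zero
      exact h4.comp tendsto_natCast_atTop_atTop
    simpa using h3.const_mul (2 * (k : ℝ))
  have h3 := h2.eventually_le_const (show (0 : ℝ) < ε / 2 by positivity)
  filter_upwards [h1, h3, eventually_ge_atTop 1] with N hN hN2 hN1 χ hχ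
  obtain ⟨a1, a2⟩ := hN χ hχ
  have hNr : (0 : ℝ) < N := by exact_mod_cast hN1
  have hNc : (N : ℂ) ≠ 0 := by exact_mod_cast hNr.ne'
  refine ⟨mul_ne_zero (pow_ne_zero _ hNc) a1, ?_⟩
  have e1 : Real.log ‖(N : ℂ) ^ (2 * k) * X N χ‖ = 2 * k * Real.log N + Real.log ‖X N χ‖ := by
    rw [norm_mul, norm_pow, Complex.norm_natCast, Real.log_mul (pow_ne_zero _ hNr.ne')
      (norm_ne_zero_iff.2 a1), Real.log_pow]
    push_cast
    ring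
  have hlog : 0 ≤ Real.log N := Real.log_nonneg (by exact_mod_cast hN1)
  have e2 : 2 * (k : ℝ) * Real.log N ≤ ε / 2 * N := by
    have e3 : 2 * (k : ℝ) * (Real.log N / N) = 2 * (k : ℝ) * Real.log N / N := by ring
    rw [e3, div_le_iff₀ hNr] at hN2
    exact hN2
  rw [e1]
  have e4 : 0 ≤ 2 * (k : ℝ) * Real.log N := by positivity
  rw [abs_le] at a2 ⊢
  constructor <;> linarith [a2.1, a2.2]

end Pool.Agent.Y290.CJ
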